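import Pool.Agent.H51.MO.TargetsA

/-!
# The core inequality (row A_CORE)
-/

namespace Pool.Agent.H42.MO

open Finset
open Pool.Agent.H1.LP (Clause viol)
open Pool.Agent.H51.MO

lemma card_Om (k b : ℕ) : Fintype.card (Om k b) = 2 * b ^ k := by
  simp [Om, mul_comm]

lemma card_Pt (k b : ℕ) : Fintype.card (Pt k b) = 2 ^ (k * b) := by
  simp only [Pt, Fintype.card_fun, Fintype.card_bool, Fintype.card_fin]
  rw [← pow_mul, mul_comm]

lemma card_agree {Om : Type} [Fintype Om] {m : ℕ} (J : Finset (Fin m)) (τ : Fin m → Om)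
    (inst : DecidablePred fun F : Fin m → Om => ∀ i ∈ J, F i = τ i) :
    (univ.filter (fun F : Fin m → Om => ∀ i ∈ J, F i = τ i)).card * Fintype.card Om ^ J.card =
      Fintype.card Om ^ m := by
  classical
  have h1 : (univ.filter (fun F : Fin m → Om => ∀ i ∈ J, F i = τ i)) =
      Fintype.piFinset (fun i => if i ∈ J then {τ i} else univ) := by
    ext F
    simp only [mem_filter, mem_univ, true_and, Fintype.mem_piFinset]
    constructor
    · intro h i
      by_cases hi : i ∈ J
      · simp [hi, h i hi]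
      · simp [hi]
    · intro h i hi
      have := h i
      simpa [hi] using this
  rw [h1, Fintype.card_piFinset]
  have h2 : ∀ i, (if i ∈ J then ({τ i} : Finset Om) else univ).card =
      if i ∈ J then 1 else Fintype.card Om := by
    intro i
    by_cases hi : i ∈ J
    · simp [hi]
    · simp [hi, Finset.card_univ]
  rw [Finset.prod_congr rfl fun i _ => h2 i]
  rw [Finset.prod_ite]
  simp only [prod_const_one, one_mul, prod_const]
  rw [← pow_add]
  congr 1
  have h3 : (univ.filter (fun i => i ∈ J)).card = J.card := by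
    congr 1
    ext i
    simp
  have h4 := Finset.card_filter_add_card_filter_not (s := (univ : Finset (Fin m)))
    (fun i => i ∈ J)
  rw [h3, Finset.card_univ, Fintype.card_fin] at h4
  omega

theorem pf_ACORE (hM : S_AMAIN) (hS : S_ASTEP) (hE : S_AENC) (hQ : S_MEQN) : S_ACORE := by
  classical
  intro n k b m q w ε β e T th hk hb hkb hm hw hth hq hβ he he1 hew hD hmβ hT hj hfar
  have hβ0 : (0 : ℝ) < β := lt_of_lt_of_le one_pos hβ
  -- the number of equations
  have hN : (Fintype.card (Om k b) : ℝ) = 2 * (b : ℝ) ^ k := by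
    rw [card_Om]; push_cast; ring
  have hb0 : (0 : ℝ) < b := by exact_mod_cast hb
  have hN0 : (0 : ℝ) < 2 * (b : ℝ) ^ k := by positivity
  have hcardF : ((univ : Finset (Fin m → Om k b)).card : ℝ) = (2 * (b : ℝ) ^ k) ^ m := by
    rw [Finset.card_univ, Fintype.card_fun, Fintype.card_fin]
    push_cast
    rw [hN]
  have hDns : Dns β (∅ : Finset (Fin m)) (univ : Finset (Fin m → Om k b)) := by
    intro J _ τ
    refine le_of_eq_of_le (b := (Fintype.card (Om k b) : ℝ) ^ m) ?_ ?_
    · exact_mod_cast card_agree J τ _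
    · rw [hcardF, hN]
      have h3 : (1 : ℝ) ≤ β ^ J.card := one_le_pow₀ hβ
      have h4 : (0 : ℝ) ≤ (2 * (b : ℝ) ^ k) ^ m := by positivity
      nlinarith
  have hstep := hS k b m q w β e univ ∅ univ hk hb hw (by
    rw [Finset.card_univ, card_Pt]
    push_cast
    have h1 : (1 : ℝ) ≤ 4 ^ q := one_le_pow₀ (by norm_num)
    have h2 : (0 : ℝ) ≤ (2 : ℝ) ^ (k * b) := by positivity
    nlinarith) hβ0 he hD hDns
  -- the light and far formulas
  set Bad : Finset (Fin m → Om k b) := univ.filter (fun F : Fin m → Om k b => ∃ x : Pt k b,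
      ((univ.filter (fun u => ys (F u) x = -1)).card : ℝ) < (1 - ε) * ((m : ℝ) / 2)) with hBad
  set NL : Finset (Fin m → Om k b) := univ.filter (fun F => ¬ Light univ w e ∅ F) with hNL
  set L : Finset (Fin m → Om k b) := univ.filter (fun F => F ∉ NL ∧ F ∉ Bad) with hL
  have hLcard : (2 * (b : ℝ) ^ k) ^ m ≤ 2 * (L.card : ℝ) := by
    have h1 : (univ : Finset (Fin m → Om k b)) ⊆ L ∪ (NL ∪ Bad) := by
      intro F _
      by_cases h : F ∈ NL ∪ Bad
      · exact mem_union_right _ h
      · rw [mem_union, not_or] at h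
        exact mem_union_left _ (mem_filter.2 ⟨mem_univ _, h⟩)
    have h2 := (card_le_card h1).trans ((card_union_le _ _).trans
      (Nat.add_le_add_left (card_union_le _ _) _))
    have h3 : ((univ : Finset (Fin m → Om k b)).card : ℝ) ≤ L.card + (NL.card + Bad.card) := by
      exact_mod_cast h2
    have h4 : (4 : ℝ) * NL.card ≤ ((univ : Finset (Fin m → Om k b)).card : ℝ) := by
      exact_mod_cast hstep
    rw [hcardF] at h3 h4
    linarith
  have hLpos : 0 < L.card := by
    have h1 : (0 : ℝ) < (2 * (b : ℝ) ^ k) ^ m := by positivity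
    have h2 : (0 : ℝ) < L.card := by linarith
    exact_mod_cast h2
  have hLight : ∀ F ∈ L, Light univ w e ∅ F := by
    intro F hF
    by_contra hcon
    exact (mem_filter.1 hF).2.1 (mem_filter.2 ⟨mem_univ _, hcon⟩)
  have hFar : ∀ F ∈ L, ∀ x : Pt k b, (1 - ε) * ((m : ℝ) / 2) ≤
      ((univ.filter (fun u => ys (F u) x = -1)).card : ℝ) := by
    intro F hF x
    by_contra hcon
    push Not at hcon
    exact (mem_filter.1 hF).2.2 (mem_filter.2 ⟨mem_univ _, x, hcon⟩)
  obtain ⟨asg, dec, U, phi, hU1, hU2, hU3, hU4⟩ := hE n k b m hk hkb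
  refine ⟨L.card, fun a => phi (L.equivFin.symm a).1, hLpos, hLcard, fun a => ⟨fun i =>
    hU1 _ (hU2 _ _), fun x => ?_⟩, fun C hC => ?_⟩
  · have h1 := hFar _ (L.equivFin.symm a).2 (dec x)
    rw [hU4]
    have h2 : (((m * 2 ^ (k - 1) : ℕ) : ℝ) / 2 ^ k) = (m : ℝ) / 2 := by
      have h3 : (2 : ℝ) ^ k = 2 ^ (k - 1) * 2 := by
        rw [← pow_succ]
        congr 1
        omega
      push_cast
      rw [h3]
      have h4 : (2 : ℝ) ^ (k - 1) ≠ 0 := by positivity
      field_simp
    rw [h2]
    exact h1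
  · set P : ℕ → Finset (Fin m → Om k b) :=
      fun v => L.filter (fun F => val C.gate (Set.range (phi F)) v) with hP
    set A : ℕ → Finset (Pt k b) :=
      fun v => univ.filter (fun x => ¬ val C.gate {D | D ∈ U ∧ D.Sat (asg x)} v) with hA
    have hmemP : ∀ v F, F ∈ P v ↔ F ∈ L ∧ val C.gate (Set.range (phi F)) v := by
      intro v F
      simp only [hP, mem_filter]
    have hmemA : ∀ v x, x ∈ A v ↔ ¬ val C.gate {D | D ∈ U ∧ D.Sat (asg x)} v := by
      intro v x
      simp only [hA, mem_filter, mem_univ, true_and]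
    have hs0 : Nonempty (Om k b) := ⟨(fun _ => ⟨0, hb⟩, true)⟩
    have hnode : ∀ v ≤ C.out, (∃ c < v, ∃ c' < v, ∀ x ∈ A v, ∀ F ∈ P v,
        (x ∈ A c ∧ F ∈ P c) ∨ (x ∈ A c' ∧ F ∈ P c')) ∨
        ∃ s : Om k b, ∀ x ∈ A v, ∀ F ∈ P v, ys s x = -1 ∧ ∃ u, F u = s := by
      intro v _
      obtain ⟨q1, q2, q3, q4, -, -⟩ := hQ n C.gate v
      rcases hg : C.gate v with c | D | ⟨j, l⟩ | ⟨j, l⟩
      · right
        obtain ⟨s⟩ := hs0
        refine ⟨s, fun x hx F hF => ?_⟩
        rw [hmemA, (q1 c hg).1] at hx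
        rw [hmemP, (q1 c hg).1] at hF
        exact absurd hF.2 hx
      · right
        by_cases hDU : D ∈ U
        · obtain ⟨s, hs1, hs2⟩ := hU3 D hDU
          refine ⟨s, fun x hx F hF => ?_⟩
          rw [hmemA, (q2 D hg).1] at hx
          rw [hmemP, (q2 D hg).1] at hF
          exact ⟨hs1 x fun h => hx ⟨hDU, h⟩, hs2 F hF.2⟩
        · obtain ⟨s⟩ := hs0
          refine ⟨s, fun x hx F hF => ?_⟩
          rw [hmemP, (q2 D hg).1] at hF
          obtain ⟨i, hi⟩ := hF.2
          exact absurd (hi ▸ hU2 F i) hDU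
      · left
        refine ⟨j.1, j.2, l.1, l.2, fun x hx F hF => ?_⟩
        rw [hmemA, (q3 j l hg).1] at hx
        rw [hmemP, (q3 j l hg).1] at hF
        by_cases hj : val C.gate {D | D ∈ U ∧ D.Sat (asg x)} j.1
        · right
          exact ⟨(hmemA _ _).2 fun hl => hx ⟨hj, hl⟩, (hmemP _ _).2 ⟨hF.1, hF.2.2⟩⟩
        · left
          exact ⟨(hmemA _ _).2 hj, (hmemP _ _).2 ⟨hF.1, hF.2.1⟩⟩
      · left
        refine ⟨j.1, j.2, l.1, l.2, fun x hx F hF => ?_⟩
        rw [hmemA, (q4 j l hg).1] at hx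
        rw [hmemP, (q4 j l hg).1] at hF
        rcases hF.2 with h | h
        · left
          exact ⟨(hmemA _ _).2 fun h' => hx (Or.inl h'), (hmemP _ _).2 ⟨hF.1, h⟩⟩
        · right
          exact ⟨(hmemA _ _).2 fun h' => hx (Or.inr h'), (hmemP _ _).2 ⟨hF.1, h⟩⟩
    have hout : A C.out = univ := by
      ext x
      rw [hmemA]
      simp only [mem_univ, iff_true]
      set Fs : Finset (Clause n) := U.filter (fun D => D.Sat (asg x)) with hFs
      have h1 : Set.range (fun i : Fin Fs.card => (Fs.equivFin.symm i).1) =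
          {D | D ∈ U ∧ D.Sat (asg x)} := by
        ext D
        constructor
        · rintro ⟨i, rfl⟩
          exact mem_filter.1 (Fs.equivFin.symm i).2
        · intro hD'
          have h2 : D ∈ Fs := mem_filter.2 hD'
          exact ⟨Fs.equivFin ⟨D, h2⟩, by simp⟩
      rw [← h1]
      refine hC Fs.card Fs.card (fun i => (Fs.equivFin.symm i).1) le_rfl (fun i => ?_)
        ⟨asg x, fun i => ?_⟩
      · exact hU1 _ (mem_filter.1 (Fs.equivFin.symm i).2).1
      · exact (mem_filter.1 (Fs.equivFin.symm i).2).2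
    have hPout : ∀ F ∈ P C.out, Light univ w e ∅ F := fun F hF =>
      hLight F ((hmemP _ _).1 hF).1
    have hmain := hM k b m q w C.out β e T th A P hk hb hw hth hq hβ he he1 hew hD hmβ hT hj
      hnode hout hPout
    have hsize : (C.size : ℝ) = (C.out : ℝ) + 1 := by
      simp [Circuit.size]
    rw [hsize]
    rcases hmain with h | h
    · left
      refine le_trans ?_ h
      refine Nat.cast_le.2 (card_le_card_of_injOn (fun a => (L.equivFin.symm a).1) ?_ ?_)
      · intro a ha
        have ha' := (mem_filter.1 (mem_coe.1 ha)).2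
        exact mem_coe.2 ((hmemP _ _).2 ⟨(L.equivFin.symm a).2, ha'⟩)
      · intro a _ a' _ h
        exact L.equivFin.symm.injective (Subtype.ext h)
    · right
      exact h

end Pool.Agent.H42.MO
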