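import Pool.Agent.H51.MO.TargetsA

/-!
# Choice of the child (row A_SEL)
-/

namespace Pool.Agent.H42.MO

open Finset
open Pool.Agent.H51.MO

open Classical in
theorem pf_ASEL (hS : S_ASTEP) : S_ASEL := by
  intro k b m q w β e th A A1 A2 I C P1 P2 hk hb hw hth hq hβ he hm hD hC hA hcov
  have key : ∀ (A' : Finset (Pt k b)) (Ψ : Finset (Fin m → Om k b)), A.card ≤ 2 * A'.card →
      Ψ ⊆ C → C.card ≤ 2 * Ψ.card → A'.Nonempty ∧ ∃ F ∈ Ψ, Light A' w e I F := by
    intro A' Ψ hA' hΨ hΨc
    have h1 : (A.card : ℝ) ≤ 2 * A'.card := by exact_mod_cast hA'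
    have h2 : th / 2 ≤ A'.card := by linarith
    have hne : A'.Nonempty := by
      rw [← Finset.card_pos]
      have : (0 : ℝ) < A'.card := by linarith
      exact_mod_cast this
    refine ⟨hne, ?_⟩
    by_contra hcon
    push Not at hcon
    have h3 : (2 : ℝ) ^ (k * b) ≤ 4 ^ q * A'.card :=
      hq.trans (mul_le_mul_of_nonneg_left h2 (by positivity))
    have h4 := hS k b m q w β e A' I C hk hb hw h3 hβ he hm hD
    have h5 : Ψ.card ≤ (C.filter (fun F => ¬ Light A' w e I F)).card := by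
      apply Finset.card_le_card
      intro F hF
      exact Finset.mem_filter.2 ⟨hΨ hF, hcon F hF⟩
    have h6 : 0 < C.card := Finset.card_pos.2 hC
    omega
  by_cases h1 : A.card ≤ 2 * (A.filter (fun x => x ∈ A1)).card
  · by_cases h2 : C.card ≤ 2 * (C.filter (fun F => F ∈ P1)).card
    · obtain ⟨hne, F, hF, hL⟩ := key _ _ h1 (Finset.filter_subset _ _) h2
      rw [Finset.mem_filter] at hF
      refine Or.inl ⟨_, Finset.filter_subset _ _, ?_, hne, F, hF.1, hF.2, hL⟩
      intro x hx
      exact (Finset.mem_filter.1 hx).2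
    · have h3 : (C.filter (fun F => F ∈ P1)).card + (C.filter (fun F => ¬ F ∈ P1)).card =
          C.card := Finset.card_filter_add_card_filter_not _
      have h4 : C.card ≤ 2 * (C.filter (fun F => ¬ F ∈ P1)).card := by omega
      obtain ⟨hne, F, hF, hL⟩ := key A _ (by omega) (Finset.filter_subset _ _) h4
      rw [Finset.mem_filter] at hF
      have h5 : ∀ x ∈ A, x ∈ A2 ∧ F ∈ P2 := by
        intro x hx
        rcases hcov x hx F hF.1 with h | h
        · exact absurd h.2 hF.2
        · exact h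
      obtain ⟨x, hx⟩ := hne
      exact Or.inr ⟨A, le_rfl, fun y hy => (h5 y hy).1, ⟨x, hx⟩, F, hF.1, (h5 x hx).2, hL⟩
  · have h3 : (A.filter (fun x => x ∈ A1)).card + (A.filter (fun x => ¬ x ∈ A1)).card =
        A.card := Finset.card_filter_add_card_filter_not _
    have h4 : A.card ≤ 2 * (A.filter (fun x => ¬ x ∈ A1)).card := by omega
    obtain ⟨hne, F, hF, hL⟩ := key _ C h4 le_rfl (by omega)
    have h5 : ∀ x ∈ A.filter (fun x => ¬ x ∈ A1), x ∈ A2 ∧ F ∈ P2 := by
      intro x hx
      rw [Finset.mem_filter] at hx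
      rcases hcov x hx.1 F hF with h | h
      · exact absurd h.1 hx.2
      · exact h
    obtain ⟨x, hx⟩ := hne
    exact Or.inr ⟨_, Finset.filter_subset _ _, fun y hy => (h5 y hy).1, ⟨x, hx⟩, F, hF,
      (h5 x hx).2, hL⟩

end Pool.Agent.H42.MO
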